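import Mathlib
import Pool.Agent.H12.McB

open Finset

namespace Pool.Agent.Results.MP_c6938d_co.Main

/-- a `(v,k,2)` covering design with `d` blocks `B 0, ..., B (d-1)` on `Fin v` -/
def IsCover (d v k : ℕ) (B : Fin d → Finset (Fin v)) : Prop :=
  2 ≤ v ∧ 2 ≤ k ∧ (∀ i, (B i).card = k) ∧ ∀ x y : Fin v, x ≠ y → ∃ i, x ∈ B i ∧ y ∈ B i

/-- frequency `k d / v` -/
noncomputable def freq (d v k : ℕ) : ℝ := (k : ℝ) * d / v

/-- blocks of the scaled version, on the ground set `Fin v × Fin d` -/
def scaled {d v : ℕ} (B : Fin d → Finset (Fin v)) : Fin d → Finset (Fin v × Fin d) :=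
  fun i => B i ×ˢ univ

/-- multi-matching of the scaled version: `U i ⊆ B' i`, `|U i| = v`, the `U i` partition
the ground set -/
def ScaledHasMultiMatching {d v : ℕ} (B : Fin d → Finset (Fin v)) : Prop :=
  ∃ U : Fin d → Finset (Fin v × Fin d),
    (∀ i, U i ⊆ scaled B i) ∧ (∀ i, (U i).card = v) ∧ ∀ x, ∃! i, x ∈ U i

lemma strong {d v k : ℕ} {B : Fin d → Finset (Fin v)} (h : IsCover d v k B) :
    ∀ x y, ∃ i, x ∈ B i ∧ y ∈ B i := by
  intro x y
  by_cases hxy : x = y
  · subst hxy
    have : Nontrivial (Fin v) := Fin.nontrivial_iff_two_le.2 h.1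
    obtain ⟨z, hz⟩ := exists_ne x
    obtain ⟨i, -, hi⟩ := h.2.2.2 z x hz
    exact ⟨i, hi, hi⟩
  · exact h.2.2.2 x y hxy

lemma mm_of_hall {d v : ℕ} (B : Fin d → Finset (Fin v))
    (hall : ∀ R : Finset (Fin d), R.card * v ≤ (R.biUnion B).card * d) :
    ScaledHasMultiMatching B := by
  classical
  have := (all_card_le_biUnion_card_iff_exists_injective
    (fun p : Fin d × Fin v => scaled B p.1)).1 (by
      intro s
      have h1 : s.card ≤ (s.image Prod.fst).card * v := by
        have : s ⊆ (s.image Prod.fst) ×ˢ univ := fun p hp =>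
          mem_product.2 ⟨mem_image_of_mem _ hp, mem_univ _⟩
        simpa using card_le_card this
      have h2 : ((s.image Prod.fst).biUnion B) ×ˢ (univ : Finset (Fin d)) ⊆
          s.biUnion fun p => scaled B p.1 := by
        intro x hx
        obtain ⟨i, hi, hxi⟩ := mem_biUnion.1 (mem_product.1 hx).1
        obtain ⟨p, hp, rfl⟩ := mem_image.1 hi
        exact mem_biUnion.2 ⟨p, hp, mem_product.2 ⟨hxi, mem_univ _⟩⟩
      have h3 := card_le_card h2
      rw [card_product, card_univ, Fintype.card_fin] at h3
      exact h1.trans ((hall _).trans h3))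
  obtain ⟨f, hf, hfB⟩ := this
  have hbij : Function.Bijective f :=
    (Fintype.bijective_iff_injective_and_card f).2 ⟨hf, by simp [mul_comm]⟩
  refine ⟨fun i => univ.image fun j : Fin v => f (i, j), ?_, ?_, ?_⟩
  · intro i x hx
    obtain ⟨j, -, rfl⟩ := mem_image.1 hx
    exact hfB (i, j)
  · intro i
    rw [card_image_of_injective]
    · simp
    · intro a b hab
      simpa using hf hab
  · intro x
    obtain ⟨⟨i, j⟩, rfl⟩ := hbij.2 x
    refine ⟨i, mem_image.2 ⟨j, mem_univ _, rfl⟩, ?_⟩
    intro i' hi'
    obtain ⟨j', -, e⟩ := mem_image.1 hi'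
    simpa using congrArg Prod.fst (hf e)

/-- repeated blocks can be replaced -/
lemma make_inj {d v k : ℕ} (hd : d ≤ v.choose k) (B : Fin d → Finset (Fin v))
    (h : IsCover d v k B) : ∃ B', IsCover d v k B' ∧ Function.Injective B' := by
  classical
  obtain ⟨B', hB', hmax⟩ := Set.exists_max_image {B : Fin d → Finset (Fin v) | IsCover d v k B}
    (fun B => (univ.image B).card) (Set.toFinite _) ⟨B, h⟩
  refine ⟨B', hB', ?_⟩
  by_contra hni
  obtain ⟨i, j, hij, hne⟩ : ∃ i j, B' i = B' j ∧ i ≠ j := by
    unfold Function.Injective at hni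
    push Not at hni
    exact hni
  have him : univ.image B' = (univ.erase j).image B' := by
    apply Subset.antisymm
    · intro X hX
      obtain ⟨l, -, rfl⟩ := mem_image.1 hX
      by_cases hl : l = j
      · subst hl
        exact mem_image.2 ⟨i, by simpa using hne, hij⟩
      · exact mem_image.2 ⟨l, by simpa using hl, rfl⟩
    · exact image_subset_image (erase_subset _ _)
  have hlt : (univ.image B').card < (powersetCard k (univ : Finset (Fin v))).card := by
    rw [him, card_powersetCard, card_univ, Fintype.card_fin]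
    have := card_image_le (s := univ.erase j) (f := B')
    rw [card_erase_of_mem (mem_univ _), card_univ, Fintype.card_fin] at this
    have := j.2
    omega
  obtain ⟨X, hX1, hX2⟩ := exists_mem_notMem_of_card_lt_card hlt
  have hXk : X.card = k := (mem_powersetCard.1 hX1).2
  have hc : IsCover d v k (Function.update B' j X) := by
    refine ⟨hB'.1, hB'.2.1, ?_, ?_⟩
    · intro l
      by_cases hl : l = j
      · subst hl; simpa using hXk
      · rw [Function.update_of_ne hl]; exact hB'.2.2.1 l
    · intro x y hxy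
      obtain ⟨l, h1, h2⟩ := hB'.2.2.2 x y hxy
      by_cases hl : l = j
      · subst hl
        refine ⟨i, ?_⟩
        rw [Function.update_of_ne hne, hij]
        exact ⟨h1, h2⟩
      · exact ⟨l, by rw [Function.update_of_ne hl]; exact ⟨h1, h2⟩⟩
  have h1 := hmax _ hc
  have h2 : insert X (univ.image B') ⊆ univ.image (Function.update B' j X) := by
    intro Y hY
    rcases mem_insert.1 hY with rfl | hY
    · exact mem_image.2 ⟨j, mem_univ _, by simp⟩
    · rw [him] at hY
      obtain ⟨l, hl, rfl⟩ := mem_image.1 hY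
      exact mem_image.2 ⟨l, mem_univ _, Function.update_of_ne (by simpa using hl) _ _⟩
  have h3 := card_le_card h2
  rw [card_insert_of_notMem hX2] at h3
  omega

lemma le_choose {v k : ℕ} (h1 : 0 < k) (h2 : k < v) : v ≤ v.choose k := by
  induction v generalizing k with
  | zero => omega
  | succ n ih =>
    obtain ⟨j, rfl⟩ : ∃ j, k = j + 1 := ⟨k - 1, by omega⟩
    rw [Nat.choose_succ_succ']
    rcases Nat.eq_zero_or_pos j with rfl | hj
    · simp [add_comm]
    · have a1 := ih hj (by omega)
      have a2 : 0 < n.choose (j + 1) := Nat.choose_pos (by omega)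
      omega

theorem result : ∀ d : ℕ, 3 ≤ d → ∃ β : ℝ, 0 < β ∧
    (∃ (v k : ℕ) (B : Fin d → Finset (Fin v)),
      IsCover d v k B ∧ Function.Injective B ∧ freq d v k ≤ β) ∧
    ∀ (v k : ℕ) (B : Fin d → Finset (Fin v)),
      IsCover d v k B → freq d v k ≤ β → ScaledHasMultiMatching B := by
  classical
  intro d hd
  let i0 : Fin d := ⟨0, by omega⟩
  obtain ⟨m, hm, hopt⟩ := H12Mc.exists_opt i0
  have hl := H12Mc.load_pos hm i0
  have ht := H12Mc.tot_pos hm.1
  have hlt : H12Mc.load m i0 < H12Mc.tot m := by
    have : Nonempty (Fin d) := ⟨i0⟩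
    have hb := H12Mc.bound_weak i0 _ _ hopt (ι := Fin d) (V := Fin d) (by simp)
      (fun i => {i}ᶜ) (d - 1) (fun i => by simp [card_compl]) (by simp) (by
        intro x y
        have : ({x, y} : Finset (Fin d)).card < (univ : Finset (Fin d)).card := by
          have := card_le_two (a := x) (b := y)
          simp only [card_univ, Fintype.card_fin]
          omega
        obtain ⟨z, -, hz⟩ := exists_mem_notMem_of_card_lt_card this
        simp only [mem_insert, mem_singleton, not_or] at hz
        exact ⟨z, by simpa using Ne.symm hz.1, by simpa using Ne.symm hz.2⟩)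
    rw [Fintype.card_fin] at hb
    by_contra hh
    push Not at hh
    obtain ⟨e, rfl⟩ : ∃ e, d = e + 1 := ⟨d - 1, by omega⟩
    simp only [Nat.add_sub_cancel] at hb
    nlinarith
  have hdm : H12Mc.Good (d • m) := by
    refine ⟨?_, ?_, ?_⟩
    · intro h
      apply hm.1
      funext T
      have := congrFun h T
      simp only [Pi.smul_apply, smul_eq_mul, Pi.zero_apply, Nat.mul_eq_zero] at this
      simp only [Pi.zero_apply]
      omega
    · intro T T' h1 h2
      simp only [Pi.smul_apply, smul_eq_mul, ne_eq, Nat.mul_eq_zero, not_or] at h1 h2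
      exact hm.2.1 T T' h1.2 h2.2
    · intro i j
      have := hm.2.2 i j
      unfold H12Mc.load at this ⊢
      simp only [Pi.smul_apply, smul_eq_mul]
      have e : ∀ i : Fin d, (∑ T : Finset (Fin d), if i ∈ T then d * m T else 0) =
          d * ∑ T : Finset (Fin d), if i ∈ T then m T else 0 := by
        intro i
        rw [mul_sum]
        refine sum_congr rfl fun T _ => ?_
        split_ifs <;> simp
      rw [e, e, this]
  have e1 : H12Mc.tot (d • m) = d * H12Mc.tot m := by
    simp [H12Mc.tot, mul_sum]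
  have e2 : H12Mc.load (d • m) i0 = d * H12Mc.load m i0 := by
    unfold H12Mc.load
    rw [mul_sum]
    refine sum_congr rfl fun T _ => ?_
    split_ifs <;> simp
  have pt : (0 : ℝ) < H12Mc.tot m := by exact_mod_cast ht
  have pl : (0 : ℝ) < H12Mc.load m i0 := by exact_mod_cast hl
  have pd : (0 : ℝ) < d := by exact_mod_cast (by omega : 0 < d)
  refine ⟨(H12Mc.load m i0 : ℝ) * d / H12Mc.tot m, by positivity, ?_, ?_⟩
  · obtain ⟨B, hB1, hB2⟩ := H12Mc.design_of_good i0 _ hdm
    have hc : IsCover d _ (2 * H12Mc.load (d • m) i0) B :=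
      ⟨by rw [e1]; nlinarith, by rw [e2]; nlinarith, hB1, fun x y _ => hB2 x y⟩
    obtain ⟨B', h1, h2⟩ := make_inj (by
      refine le_trans ?_ (le_choose ?_ ?_)
      · rw [e1]; nlinarith
      · rw [e2]; positivity
      · rw [e1, e2]; nlinarith) B hc
    refine ⟨_, _, B', h1, h2, le_of_eq ?_⟩
    unfold freq
    rw [e1, e2]
    push_cast
    field_simp
  · intro v k B hB hf
    have hv : (0 : ℝ) < v := by
      have := hB.1
      exact_mod_cast (by omega : 0 < v)
    unfold freq at hf
    rw [div_le_div_iff₀ hv pt] at hf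
    have hf2 : k * H12Mc.tot m ≤ H12Mc.load m i0 * v := by
      have : ((k : ℝ) * H12Mc.tot m) * d ≤ (H12Mc.load m i0 * v) * d := by nlinarith
      have := le_of_mul_le_mul_right this pd
      exact_mod_cast this
    apply mm_of_hall
    intro R
    have := H12Mc.hall_of_opt i0 B k (by have := hB.2.1; omega) hB.2.2.1 (strong hB) (by
      intro n hn
      have h1 := hopt n hn
      rw [Fintype.card_fin]
      have : H12Mc.tot n * k * H12Mc.tot m ≤ v * H12Mc.load n i0 * H12Mc.tot m := by
        have a1 := Nat.mul_le_mul_left (H12Mc.tot n) hf2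
        have a2 := Nat.mul_le_mul_right v h1
        nlinarith
      exact Nat.le_of_mul_le_mul_right this ht) R
    simpa using this

end Pool.Agent.Results.MP_c6938d_co.Main
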